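import Pool.Agent.N483.KM.FinB

/-!
# The KLS inequality (Cheeger form) is stable under a bounded Brunn-Minkowski deficit

Q1, for sets `A` of measure one half, for all convex bodies `L ⊂ ℝⁿ` for which there is a convex body
`K ⊂ ℝⁿ` which satisfies the inequality of Kannan, Lovasz and Simonovits, in the form `WeakPoincare A`, with

`|(K + L) / 2| ≤ √s (|K| |L|)^{1/2}`,

that is if the Brunn-Minkowski inequality (in the multiplicative form `|(K + L) / 2| ≥ √(|K| |L|)`) is
sharp up to a constant factor for `K` and `L`. Nothing is assumed about the position of the bodies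
(the condition does not change under translations), their volumes may be different, and neither body
needs to be symmetric. The constant depends on `s` and on the constants of `K`, and not on the dimension.
The hypothesis on `K` is `WeakPoincare A`: weak Poincare inequalities `Var v ≤ δ + A(δ) σ E ‖∇ v‖²` for all
linear images with variances at most `σ`, all `δ > 0` and `|v| ≤ 1`, where `A` is any function which is
fixed in advance. Bodies with a Poincare inequality with constant `c₀` in isotropic position have
`A(δ) = c₀ / (4 δ)`. `L` satisfies such inequalities too, so the theorem can be iterated.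

E. Milman (On the role of convexity in isoperimetry, spectral gap and concentration, Invent. Math.
2009) proves that the constants of `K` and `L` are comparable if `|K ∩ L| ≥ max (|K|, |L|) / s`. This follows
from the theorem (twice, by way of `K ∩ L`; theorem `overlap`), but in the theorem `K` and `L` may be
disjoint, and the intersection of `K` with all translates of `L` may be much smaller than `K`: for the
cube and the box with side lengths `1 ± n^{-1/2}` (as many of both signs) the deficit is bounded and
the intersections have volume at most `exp(-c √n)`. For `L = -K` the condition is `|K - K| ≤ √s 2^n |K|`.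
Eldan and Klartag (Dimensionality and the stability of the Brunn-Minkowski inequality, 2014) study
pairs of convex bodies under the same condition `|(K + L) / 2| ≤ 5 √(|K| |L|)`; they show that the
covariance matrices and most of the marginals of `K` and `L` are near to each other, given bounds
for the thin shell. The theorem says that the isoperimetric inequality of Kannan, Lovasz and
Simonovits itself passes from `K` to `L`.

Method. (1) `K` and a dilate `L'` of `L` have the same volume and `|(K + L') / 2| ≤ s |K|` (concavity of the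
logarithm). (2) `M = {(x, t) | 0 ≤ t ≤ 1, x ∈ (1 - t) K + t L'}` is a convex body in
`ℝⁿ × ℝ` with sections `K` for `t = 0` and `L'` for `t = 1`. By the Brunn-Minkowski inequality all of its
sections have volume between `|K|` and `s² |K|` or so. (3) So both `K` and `L'` are large sections of `M`,
and the theorem on large sections (`LargeSections`), in its form for two sections, applies: let `P`
be a linear map such that `P x` has variances at most `σ` on `L'`. There is a linear map `B` such that `P x - B t`
has variances at most `C σ` on `M`, hence on all sections of `M`. The concentration radii of the laws of `P x - B t`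
on two sections with a nearly maximal affinity (sections whose volumes are nearly equal) are
comparable; a chain of boundedly many such sections connects `K` and `L'`, because the volumes differ
at most by a constant factor. This is proved with the Prekopa-Leindler inequality in the Gaussian
channel; see `LargeSections` for the method. (4) The passage from the concentration of all linear images to the
isoperimetric inequality is that of `ImagesOfSections`.

The lemmas were formalised by helpers 327, 738, 348, the authors of the lemmas of `LargeSections`,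
and 483.
-/

set_option autoImplicit false

namespace Pool.Agent.Results.MP_8d00da_gt.BrunnMinkowskiDeficit

open MeasureTheory Set
open scoped ENNReal InnerProductSpace Pointwise

/-- Euclidean space of dimension `n` -/
abbrev Euc (n : ℕ) : Type := EuclideanSpace ℝ (Fin n)

/-- the uniform probability measure on `K` -/
noncomputable def unif {n : ℕ} (K : Set (Euc n)) : Measure (Euc n) :=
  (volume K)⁻¹ • volume.restrict K

/-- The inequalities `Var v(P x) ≤ δ + A(δ) σ E ‖∇ v(P x)‖²` for all `δ > 0`, all linear images `P x` of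
`x` (of law `μ`), all bounds `σ` for the variances of the marginals of `P x` in directions of length
one, and all `C¹` functions `v` with `|v| ≤ 1` and bounded gradient. They follow, with
`A(δ) = c₀ / (4 δ)`, from the Poincare inequality with constant `c₀` for `μ` in isotropic position. -/
def WeakPoincare (A : ℝ → ℝ) {M : ℕ} (μ : Measure (Euc M)) : Prop :=
  ∀ δ : ℝ, 0 < δ → ∀ (k : ℕ) (P : Euc M →ₗ[ℝ] Euc k) (σ : ℝ), 0 < σ →
  (∀ θ : Euc k, ‖θ‖ = 1 → ProbabilityTheory.variance (fun x => ⟪P x, θ⟫_ℝ) μ ≤ σ) →
  ∀ (v : Euc k → ℝ) (C : ℝ), ContDiff ℝ 1 v → (∀ y, |v y| ≤ 1) → (∀ y, ‖fderiv ℝ v y‖ ≤ C) →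
  ProbabilityTheory.variance (fun x => v (P x)) μ ≤ δ + A δ * σ * ∫ x, ‖fderiv ℝ v (P x)‖ ^ 2 ∂μ

/-- convex bodies -/
structure Body {n : ℕ} (K : Set (Euc n)) : Prop where
  comp : IsCompact K
  conv : Convex ℝ K
  int : (interior K).Nonempty

/-- Minkowski (exterior) boundary measure `μ⁺(A)` -/
noncomputable def bdry {n : ℕ} (μ : Measure (Euc n)) (A : Set (Euc n)) : ℝ≥0∞ :=
  Filter.liminf (fun ε : ℝ => (μ (Metric.thickening ε A) - μ A) / ENNReal.ofReal ε)
    (nhdsWithin 0 (Set.Ioi 0))

/-- the halfspace `⟪u, x⟫ ≤ b` -/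
def halfspace {n : ℕ} (u : Euc n) (b : ℝ) : Set (Euc n) := {x | inner ℝ u x ≤ b}

/-- the inequality of Kannan, Lovasz and Simonovits with constant `c` for the uniform measure `μ` on
`K` and sets of measure one half: if `t min(μ H, 1 - μ H) ≤ μ⁺(H)` for all halfspaces `H` then
`c t min(μ A, 1 - μ A) ≤ μ⁺(A)` for all measurable `A` with `μ A = 1/2` -/
def KLSHalf {n : ℕ} (c : ℝ) (K : Set (Euc n)) : Prop :=
  ∀ t : ℝ≥0∞, (∀ (u : Euc n) (b : ℝ), u ≠ 0 →
      t * min (unif K (halfspace u b)) (1 - unif K (halfspace u b)) ≤
        bdry (unif K) (halfspace u b)) →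
    ∀ A : Set (Euc n), MeasurableSet A → unif K A = 1 / 2 →
      ENNReal.ofReal c * t * min (unif K A) (1 - unif K A) ≤ bdry (unif K) A

theorem unif_prob {n : ℕ} {K : Set (Euc n)} (h1 : IsCompact K) (h3 : (interior K).Nonempty) :
    IsProbabilityMeasure (unif K) :=
  Pool.Agent.R754.KG.un_prob (Pool.Agent.R755.KF.vol_ne h3) h1.measure_lt_top.ne

theorem pd_of {A : ℝ → ℝ} {s n : ℕ} {K L : Set (Euc n)} (hK : Body K) (hL : Body L)
    (hA : WeakPoincare A (unif K)) (hd : volume ((1 / 2 : ℝ) • (K + L)) ^ 2 ≤ s * (volume K * volume L)) :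
    Pool.Agent.N483.KM.PD A s n L := by
  have hp := unif_prob hK.comp hK.int
  obtain ⟨B, hB⟩ := Pool.Agent.R755.KS.un_bdd hK.comp
  exact ⟨K, hK.comp, hK.conv, hK.int, Pool.Agent.R755.KS.km_of_wpf (μ := unif _) hB hA, hL.comp,
    hL.conv, hL.int, hd⟩

theorem weakPoincare (A : ℝ → ℝ) (s : ℕ) : ∃ A' : ℝ → ℝ, ∀ (n : ℕ) (K L : Set (Euc n)), Body K →
    Body L → WeakPoincare A (unif K) →
    volume ((1 / 2 : ℝ) • (K + L)) ^ 2 ≤ s * (volume K * volume L) → WeakPoincare A' (unif L) := by
  obtain ⟨A', -, H⟩ := Pool.Agent.N483.KM.pd_km A s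
  refine ⟨A', fun n K L hK hL hA hd => ?_⟩
  obtain ⟨h1, h2, h3, h4⟩ := H n L (pd_of hK hL hA hd)
  have hp := unif_prob h1 h3
  obtain ⟨B, hB⟩ := Pool.Agent.R755.KS.un_bdd h1
  exact Pool.Agent.R755.KS.wpf_of_km (μ := unif L) hB h4

/-- from the functional inequality to sets of measure one half -/
theorem half_of : ∀ c : ℝ, 0 < c → ∃ c' : ℝ, 0 < c' ∧ ∀ (n : ℕ) (K : Set (Euc n)), IsCompact K →
    Convex ℝ K → (interior K).Nonempty →
    Pool.Agent.Y506.RG.Star c (Pool.Agent.Y506.PV.ind K) → KLSHalf c' K := by
  intro c hc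
  obtain ⟨c', hc', H'⟩ := Pool.Agent.Y532.PV.che c hc
  refine ⟨c', hc', fun n K h1 h2 h3 h4 => ?_⟩
  intro t ht A hA hA2
  have hprob : IsProbabilityMeasure (unif K) :=
    Pool.Agent.Y506.KS.unif_prob (Pool.Agent.Y506.PV.vol_pos h3) h1.measure_lt_top.ne
  have key := H' n _ h1 h2 h3 h4 (unif K) rfl t ht A hA2
  refine le_trans ?_ key
  calc ENNReal.ofReal c' * t * min (unif K A) (1 - unif K A)
      ≤ ENNReal.ofReal c' * t * 1 := mul_le_mul_right ((min_le_left _ _).trans prob_le_one) _
    _ = _ := mul_one _

/-- **KLS (Cheeger form) is stable under a bounded Brunn-Minkowski deficit.** For all functions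
`A : ℝ → ℝ` and all `s` there are a function `A'` and a constant `c > 0` such that for all `n` and all convex
bodies `K, L ⊂ ℝⁿ` with `|(K + L) / 2|² ≤ s |K| |L|`: if `K` satisfies `WeakPoincare A` then `L` satisfies
`WeakPoincare A'` and the inequality of Kannan, Lovasz and Simonovits with constant `c` for all sets of
measure one half. -/
theorem result : ∀ (A : ℝ → ℝ) (s : ℕ), ∃ (A' : ℝ → ℝ) (c : ℝ), 0 < c ∧ ∀ (n : ℕ) (K L : Set (Euc n)),
    Body K → Body L → WeakPoincare A (unif K) →
    volume ((1 / 2 : ℝ) • (K + L)) ^ 2 ≤ s * (volume K * volume L) →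
    WeakPoincare A' (unif L) ∧ KLSHalf c L := by
  intro A s
  obtain ⟨A', HA⟩ := weakPoincare A s
  obtain ⟨c, hc, H⟩ := Pool.Agent.N483.KM.pd_star A s
  obtain ⟨c', hc', H'⟩ := half_of c hc
  refine ⟨A', c', hc', fun n K L hK hL hA hd => ⟨HA n K L hK hL hA hd, ?_⟩⟩
  obtain ⟨h1, h2, h3, h4⟩ := H n L (pd_of hK hL hA hd)
  exact H' n L h1 h2 h3 h4

/-- intersections of large volume -/
theorem inter_body {s n : ℕ} {K L : Set (Euc n)} (hK : Body K) (hL : Body L)
    (h : volume K ≤ s * volume (K ∩ L)) : Body (K ∩ L) := by
  have hc : Convex ℝ (K ∩ L) := hK.conv.inter hL.conv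
  refine ⟨hK.comp.inter hL.comp, hc, Pool.Agent.R755.KF.int_of_vol hc ?_⟩
  intro h0
  rw [h0, mul_zero] at h
  exact Pool.Agent.R755.KF.vol_ne hK.int (le_antisymm h (zero_le))

/-- the deficit of a body and a subset of large volume -/
theorem deficit_subset {s n : ℕ} {K L : Set (Euc n)} (hK : Convex ℝ K) (h : L ⊆ K)
    (hv : volume K ≤ s * volume L) :
    volume ((1 / 2 : ℝ) • (K + L)) ^ 2 ≤ s * (volume K * volume L) := by
  have h1 : (1 / 2 : ℝ) • (K + L) ⊆ K := by
    rintro _ ⟨_, ⟨x, hx, y, hy, rfl⟩, rfl⟩
    have := hK hx (h hy) (by norm_num : (0 : ℝ) ≤ 1 / 2) (by norm_num : (0 : ℝ) ≤ 1 / 2) (by norm_num)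
    simpa [smul_add] using this
  calc volume ((1 / 2 : ℝ) • (K + L)) ^ 2 ≤ volume K ^ 2 := by gcongr
    _ = volume K * volume K := sq _
    _ ≤ volume K * (s * volume L) := by gcongr
    _ = s * (volume K * volume L) := by ring

/-- The case of E. Milman: `|K ∩ L| ≥ max (|K|, |L|) / s`. -/
theorem overlap : ∀ (A : ℝ → ℝ) (s : ℕ), ∃ (A' : ℝ → ℝ) (c : ℝ), 0 < c ∧ ∀ (n : ℕ) (K L : Set (Euc n)),
    Body K → Body L → WeakPoincare A (unif K) → volume K ≤ s * volume (K ∩ L) →
    volume L ≤ s * volume (K ∩ L) → WeakPoincare A' (unif L) ∧ KLSHalf c L := by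
  intro A s
  obtain ⟨A1, H1⟩ := weakPoincare A s
  obtain ⟨A2, c, hc, H2⟩ := result A1 s
  refine ⟨A2, c, hc, fun n K L hK hL hA h1 h2 => ?_⟩
  have hI := inter_body hK hL h1
  have h3 := H1 n K (K ∩ L) hK hI hA (deficit_subset hK.conv inter_subset_left h1)
  refine H2 n (K ∩ L) L hI hL h3 ?_
  have h4 := deficit_subset hL.conv (inter_subset_right : K ∩ L ⊆ L) h2
  rwa [add_comm, mul_comm (volume L)] at h4

end Pool.Agent.Results.MP_8d00da_gt.BrunnMinkowskiDeficit
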