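import Pool.Agent.N483.KM.FinS

/-!
# KLS (Cheeger form) for the feasible sets of conic programs with few equations

Q1, for sets `A` of measure one half, for all images under affine maps `ℝ^m → ℝ^n`, `m ≤ n + p`, of the
convex bodies

`K = {x ∈ ℝ^m | w + L x ∈ C}`, `C ⊂ ℝ^N`, `N ≤ m + q`,

where `L` is linear and `C` is a product of arbitrarily many Lorentz cones `{(x, t) | ‖x‖ ≤ t}` of arbitrary
dimensions (half-lines are the Lorentz cones of dimension one) and cones of positive semidefinite
real symmetric or complex Hermitian matrices of arbitrary orders, whenever `K` is bounded with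
nonempty interior. The constant depends only on `q` and `p`, and not on the dimensions, the number of
factors or their orders. So these are the feasible sets of linear, second order and semidefinite
programs

`{X ∈ C | ⟪B_i, X⟫ = b_i for i ≤ q}`

with a bounded number `q` of equations; linear inequalities may be added (each of them counts as one
half-line and one equation). In the form of linear matrix inequalities: the spectrahedra
`{x ∈ ℝ^m | A_0 + ∑ x_i A_i ⪰ 0}` with symmetric `D × D` matrices and `m ≥ D (D + 1) / 2 - q` (Hermitian: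
`m ≥ D² - q`; theorem `spectrahedra`). Examples: the set of the quantum states (density matrices) on
`ℂ^D`, and its sections by `q` linear equations and inequalities for the expectations of observables;
sections of codimension `q` of the cones `{(x, t) | ‖x‖ ≤ t}` and of their products; polytopes with
`m + q` facets (all the factors are half-lines; this case is known from `RidgeFunctions`). No symmetry
is assumed or present for `q ≥ 2`, and nothing is assumed about the position of the affine subspace
`w + L ℝ^m` (`K` may be a section of a face of the cone, or very small compared to parallel sections).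

Method. (1) Supporting functional: the volume `V(b)` of the section `{x | e(x, b) ∈ C}`, where
`e : ℝ^m × ℝ^q → ℝ^N` is bijective, is homogeneous and its superlevel sets are convex, so there is a
linear functional `f` on `ℝ^N`, which depends only on `b`, and is positive on `C` without the origin, such
that `V(b) ≤ 2 V(b_0)` if `f ≤ F := f(e(x, b_0))`. So `K` is a section of `{z ∈ C | f z ≤ F}` which is not
smaller than half of any parallel section, and by the theorem of `LargeSections` it is enough to
consider the bodies `{z ∈ C | f z ≤ F}`, with constants which do not depend on `f`. (2) Homogeneity: for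
every functional `f` as in (1) there is a linear bijection of `C` which transforms `f` to the standard
functional (the trace, respectively the coordinate `t`), because the group of the linear automorphisms
of the cone is transitive on the interior of the dual cone. (3) Poincare inequalities, in isotropic
position, for the densities `exp(-f)` on `C` with an absolute constant: for positive semidefinite matrices
and `f` the trace the density is invariant under conjugation (`SimultaneousConjugation`); for the Lorentz cones `(x, t)`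
has the same law as `(x, u + ‖x‖)` with independent `x` (density `exp(-‖x‖)`, 1-symmetric) and `u`
(exponential), a Lipschitz map, and all variances are equal to `k + 1`; products by tensorisation. (4)
`exp(-f)` is the mixture of the uniform measures on the dilates of `{z ∈ C | f z ≤ F}` (`ImagesOfSections`).
(5) If `w + L ℝ^m` does not meet the interior of `C`, approximation by `w + ε c + L ℝ^m`, `c` in the interior. (6)
The images under linear maps with kernels of dimension at most `p`, and the passage from the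
concentration of all linear images to the isoperimetric inequality, are those of `ImagesOfSections`.

The lemmas were formalised by helpers 31, 78, 273, 277, 300, 395, 618, 697, 717, 814, 933, the authors of the
lemmas of `LargeSections`, and 483.
-/

set_option autoImplicit false

namespace Pool.Agent.Results.MP_8d00da_gt.ConicPrograms

open MeasureTheory Set
open scoped ENNReal InnerProductSpace ComplexOrder

/-- Euclidean space of dimension `n` -/
abbrev Euc (n : ℕ) : Type := EuclideanSpace ℝ (Fin n)

/-- the uniform probability measure on `K` -/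
noncomputable def unif {n : ℕ} (K : Set (Euc n)) : Measure (Euc n) :=
  (volume K)⁻¹ • volume.restrict K

/-- `Φ` is a linear isometric parametrisation of the Hermitian `D × D` matrices over `𝕜` (`ℝ` or `ℂ`),
with the Hilbert-Schmidt norm, by `ℝ^ι` -/
structure HermFrame {𝕜 : Type} [RCLike 𝕜] {D : ℕ} {ι : Type} [Fintype ι]
    (Φ : EuclideanSpace ℝ ι →ₗ[ℝ] Matrix (Fin D) (Fin D) 𝕜) : Prop where
  herm : ∀ x, (Φ x).conjTranspose = Φ x
  surj : ∀ A : Matrix (Fin D) (Fin D) 𝕜, A.conjTranspose = A → ∃ x, Φ x = A
  iso : ∀ x, ∑ i, ∑ j, ‖Φ x i j‖ ^ 2 = ‖x‖ ^ 2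

/-- In arbitrary linear coordinates: the Lorentz cones `{(x, t) | ‖x‖ ≤ t}`, `x ∈ ℝ^k`, `t ∈ ℝ` (`k = 0` is the
half-line), the cones of positive semidefinite real symmetric or complex Hermitian matrices of order
`D ≥ 1`, and all their products. -/
inductive SymmetricCone : ∀ {N : ℕ}, Set (Euc N) → Prop
  | lorentz {k N : ℕ} (e : (Euc k × Euc 1) ≃ₗ[ℝ] Euc N) :
      SymmetricCone (e '' {z | ‖z.1‖ ≤ z.2 0})
  | psd (𝕜 : Type) [RCLike 𝕜] {D : ℕ} {ι : Type} [Fintype ι]
      (Φ : EuclideanSpace ℝ ι →ₗ[ℝ] Matrix (Fin D) (Fin D) 𝕜) {N : ℕ}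
      (e : EuclideanSpace ℝ ι ≃ₗ[ℝ] Euc N) : 1 ≤ D → HermFrame Φ →
      SymmetricCone (e '' {x | (Φ x).PosSemidef})
  | prod {a b N : ℕ} (e : (Euc a × Euc b) ≃ₗ[ℝ] Euc N) {C : Set (Euc a)} {C' : Set (Euc b)} :
      SymmetricCone C → SymmetricCone C' → SymmetricCone (e '' (C ×ˢ C'))

/-- Bounded sets with nonempty interior of the form `K = {x ∈ ℝ^m | w + L x ∈ C}`, `L` linear, `C ⊂ ℝ^N` one of
the cones above, `N ≤ m + q`. -/
structure ConicBody (q : ℕ) {m : ℕ} (K : Set (Euc m)) : Prop where
  bdd : Bornology.IsBounded K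
  int : (interior K).Nonempty
  rep : ∃ (N : ℕ) (C : Set (Euc N)) (L : Euc m →ₗ[ℝ] Euc N) (w : Euc N), N ≤ m + q ∧
    SymmetricCone C ∧ K = {x | w + L x ∈ C}

/-- Minkowski (exterior) boundary measure `μ⁺(A)` -/
noncomputable def bdry {n : ℕ} (μ : Measure (Euc n)) (A : Set (Euc n)) : ℝ≥0∞ :=
  Filter.liminf (fun ε : ℝ => (μ (Metric.thickening ε A) - μ A) / ENNReal.ofReal ε)
    (nhdsWithin 0 (Set.Ioi 0))

/-- the halfspace `⟪u, x⟫ ≤ b` -/
def halfspace {n : ℕ} (u : Euc n) (b : ℝ) : Set (Euc n) := {x | inner ℝ u x ≤ b}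

/-- the inequality of Kannan, Lovasz and Simonovits with constant `c` for the uniform measure `μ` on
`K` and sets of measure one half: if `t min(μ H, 1 - μ H) ≤ μ⁺(H)` for all halfspaces `H` then
`c t min(μ A, 1 - μ A) ≤ μ⁺(A)` for all measurable `A` with `μ A = 1/2` -/
def KLSHalf {n : ℕ} (c : ℝ) (K : Set (Euc n)) : Prop :=
  ∀ t : ℝ≥0∞, (∀ (u : Euc n) (b : ℝ), u ≠ 0 →
      t * min (unif K (halfspace u b)) (1 - unif K (halfspace u b)) ≤
        bdry (unif K) (halfspace u b)) →
    ∀ A : Set (Euc n), MeasurableSet A → unif K A = 1 / 2 →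
      ENNReal.ofReal c * t * min (unif K A) (1 - unif K A) ≤ bdry (unif K) A

theorem unif_prob {n : ℕ} {K : Set (Euc n)} (h1 : IsCompact K) (h3 : (interior K).Nonempty) :
    IsProbabilityMeasure (unif K) :=
  Pool.Agent.R754.KG.un_prob (Pool.Agent.R755.KF.vol_ne h3) h1.measure_lt_top.ne

theorem scn_of {N : ℕ} {C : Set (Euc N)} (h : SymmetricCone C) : Pool.Agent.N483.KM.SCn N C := by
  induction h with
  | lorentz e => exact .lor _ _ e
  | psd 𝕜 Φ e hD hΦ => exact .psd 𝕜 _ _ Φ _ e hD ⟨hΦ.herm, hΦ.surj, hΦ.iso⟩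
  | prod e _ _ ih ih' => exact .prod _ _ _ e _ _ ih ih'

theorem cpr_of {q m : ℕ} {K : Set (Euc m)} (h : ConicBody q K) :
    Pool.Agent.N483.KM.CPr q m K := by
  obtain ⟨N, C, L, w, hN, hC, hK⟩ := h.rep
  exact ⟨N, C, L, w, hN, scn_of hC, h.bdd, h.int, hK⟩

theorem affine_eq {m n : ℕ} (T : Euc m →ᵃ[ℝ] Euc n) (K : Set (Euc m)) :
    T '' K = (fun x => T 0 + T.linear x) '' K := by
  refine image_congr fun x _ => ?_
  have h := T.map_vadd 0 x
  rw [vadd_eq_add, add_zero] at h
  rw [h, vadd_eq_add, add_comm]

theorem star_of (q p : ℕ) : ∃ c : ℝ, 0 < c ∧ ∀ (m n : ℕ) (K : Set (Euc m)) (T : Euc m →ᵃ[ℝ] Euc n),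
    ConicBody q K → m ≤ n + p → Function.Surjective T → IsCompact (T '' K) ∧
    Convex ℝ (T '' K) ∧ (interior (T '' K)).Nonempty ∧
    Pool.Agent.Y506.RG.Star c (Pool.Agent.Y506.PV.ind (T '' K)) := by
  obtain ⟨c, hc, H⟩ := Pool.Agent.N483.KM.cpr_star q p
  refine ⟨c, hc, fun m n K T hK hm hT => ?_⟩
  rw [affine_eq]
  exact H m n K T.linear (T 0) (cpr_of hK) hm (by rwa [AffineMap.linear_surjective_iff])

/-- Spectrahedra of small codimension: `{x ∈ ℝ^m | A_0 + ∑ x_i A_i ⪰ 0}` with Hermitian `D × D` matrices `A_i`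
over `ℝ` or `ℂ` and `m + q ≥ dim Herm_D` (that is `D (D + 1) / 2` for `ℝ`, `D²` for `ℂ`). -/
theorem spectrahedra (𝕜 : Type) [RCLike 𝕜] {q m D : ℕ} (hD : 1 ≤ D)
    (A0 : Matrix (Fin D) (Fin D) 𝕜) (A : Fin m → Matrix (Fin D) (Fin D) 𝕜)
    (h0 : A0.conjTranspose = A0) (hA : ∀ i, (A i).conjTranspose = A i)
    (hq : Module.finrank ℝ (selfAdjoint (Matrix (Fin D) (Fin D) 𝕜)) ≤ m + q) {K : Set (Euc m)}
    (hK : K = {x | (A0 + ∑ i, x i • A i).PosSemidef}) (hb : Bornology.IsBounded K)
    (hi : (interior K).Nonempty) : ConicBody q K := by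
  obtain ⟨N, Φ, hΦ, hN⟩ := Pool.Agent.N814.KM.t_FRM 𝕜 D
  obtain ⟨w, hw⟩ := hΦ.surj A0 h0
  choose a ha using fun i => hΦ.surj (A i) (hA i)
  refine ⟨hb, hi, N, LinearEquiv.refl ℝ (Euc N) '' {x | (Φ x).PosSemidef},
    { toFun := fun x => ∑ i, x i • a i
      map_add' := fun x y => by simp [add_smul, Finset.sum_add_distrib]
      map_smul' := fun r x => by simp [Finset.smul_sum, smul_smul] }, w, hN.trans_le hq,
    .psd 𝕜 Φ _ hD ⟨hΦ.herm, hΦ.surj, hΦ.iso⟩, ?_⟩
  rw [hK]
  ext x
  have h1 : Φ (w + ∑ i, x i • a i) = A0 + ∑ i, x i • A i := by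
    rw [map_add, hw, map_sum]
    simp [ha]
  constructor
  · intro hx
    exact ⟨w + ∑ i, x i • a i, by change (Φ _).PosSemidef; rw [h1]; exact hx, rfl⟩
  · rintro ⟨y, hy, hy'⟩
    change y = w + ∑ i, x i • a i at hy'
    change (Φ y).PosSemidef at hy
    rw [hy', h1] at hy
    exact hy

/-- from the functional inequality to sets of measure one half -/
theorem half_of : ∀ c : ℝ, 0 < c → ∃ c' : ℝ, 0 < c' ∧ ∀ (n : ℕ) (K : Set (Euc n)), IsCompact K →
    Convex ℝ K → (interior K).Nonempty →
    Pool.Agent.Y506.RG.Star c (Pool.Agent.Y506.PV.ind K) → KLSHalf c' K := by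
  intro c hc
  obtain ⟨c', hc', H'⟩ := Pool.Agent.Y532.PV.che c hc
  refine ⟨c', hc', fun n K h1 h2 h3 h4 => ?_⟩
  intro t ht A hA hA2
  have hprob : IsProbabilityMeasure (unif K) :=
    Pool.Agent.Y506.KS.unif_prob (Pool.Agent.Y506.PV.vol_pos h3) h1.measure_lt_top.ne
  have key := H' n _ h1 h2 h3 h4 (unif K) rfl t ht A hA2
  refine le_trans ?_ key
  calc ENNReal.ofReal c' * t * min (unif K A) (1 - unif K A)
      ≤ ENNReal.ofReal c' * t * 1 := mul_le_mul_right ((min_le_left _ _).trans prob_le_one) _
    _ = _ := mul_one _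

/-- **KLS (Cheeger form) for conic programs with few equations.** For all `q, p` there is a constant
`c > 0` such that for all bodies `K = {x | w + L x ∈ C} ⊂ ℝ^m`, where `C ⊂ ℝ^N`, `N ≤ m + q`, is a product of
Lorentz cones and of cones of positive semidefinite real or complex matrices, and all affine maps
`T` of `ℝ^m` onto `ℝ^n`, `m ≤ n + p`, the convex body `T K` satisfies the inequality of Kannan, Lovasz and
Simonovits with constant `c` for all sets of measure one half. -/
theorem result : ∀ q p : ℕ, ∃ c : ℝ, 0 < c ∧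
    ∀ (m n : ℕ) (K : Set (Euc m)) (T : Euc m →ᵃ[ℝ] Euc n), ConicBody q K → m ≤ n + p →
    Function.Surjective T → KLSHalf c (T '' K) := by
  intro q p
  obtain ⟨c, hc, H⟩ := star_of q p
  obtain ⟨c', hc', H'⟩ := half_of c hc
  refine ⟨c', hc', fun m n K T hK hm hT => ?_⟩
  obtain ⟨h1, h2, h3, h4⟩ := H m n K T hK hm hT
  exact H' n _ h1 h2 h3 h4

end Pool.Agent.Results.MP_8d00da_gt.ConicPrograms
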