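import Pool.Agent.N483.KM.FinY

/-!
# KLS (Cheeger form) for bodies given by few inequalities between sums of many functions

Q1, for sets `A` of measure one half, for all images under affine maps `ℝ^m → ℝ^{m'}`, `m ≤ m' + p`, of the
convex bodies

`K = {x | ∑_i V_ji(L_i x, t) ≤ e_j for all j < r}`.

Here `x ∈ ℝ^n`, `L = (L_i)` is a linear map of `ℝ^n` into a product `∏ ℝ^{k_i}` of arbitrarily many blocks of
arbitrary dimensions with `∑ k_i ≤ n + s`, `t ∈ ℝ^d` are at most `s` common parameters (so `K ⊂ ℝ^m`,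
`m = n + d`), and the `V_ji(y, t)` are convex lower semicontinuous functions of `(y, t) ∈ ℝ^{k_i} × ℝ^d` with
values in `(-∞, ∞]` which have the symmetries of the block (as functions of `y`). The kinds of blocks
are (`Block`):

* `small`: blocks of dimension at most `s`, and arbitrary functions;
* `coordinates`: functions invariant under permutations and changes of signs of the coordinates;
* `rotations`: functions on a rotation invariant space of tuples of at most `s` real `N × N` matrices and at
  most `s N` vectors of `ℝ^N`, `N ≥ 3`, invariant under the rotations `X ↦ g X gᵀ`, `v ↦ g v`, `g ∈ SO(N)`;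
* `hermitian`: functions of a symmetric or Hermitian matrix of order at least 3, invariant under
  conjugation by orthogonal or unitary matrices.

The image of `L` may be a proper subspace (of codimension at most `s`); it must be given by equations
which are invariant under the symmetries (no condition for the blocks of small dimension). The constant
depends only on `r`, `s` and `p`, whatever the number and the dimensions of the blocks; the body `K` has to
be bounded with nonempty interior, there are no other conditions on the `V_ji` and `e_j`. Examples: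

* intersections of `r` generalised Orlicz balls `{x | ∑_i V_ji(x_i) ≤ e_j}` (`sums_of_ridge_functions`,
  `intersections_of_lp_balls`), cut by `s` more functionals or by subspaces of codimension `s`; the same
  with blocks `x_i` in spaces of bounded dimension, or with 1-symmetric or unitarily invariant
  functions of vectors or matrices `x_i` of arbitrary dimensions, in arbitrary number: for example
  the intersections of the unit balls of `r` mixed norms `ℓ_{p_j}(X_ji)`, with different exponents `p_j` and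
  different 1-symmetric norms or Schatten norms `X_ji` in the blocks;
* with parameters (and images under maps with kernels of dimension at most `p`): bodies
  `{x | Ψ(S_1(x), …, S_r(x)) ≤ 0}` with `S_j(x) = ∑_i V_ji(x_i)` and `Ψ` convex and nondecreasing in all
  variables; bodies `{x | f_1(x) + … + f_d(x) ≤ 1}`, `f_j` the Luxemburg norm of an Orlicz space (for example
  `‖x‖_p + ‖x‖_q ≤ 1`): images of `{(x, t) | ∑_i M_j(x_i / t_j) t_j ≤ t_j, ∑ t_j ≤ 1}`;
* microcanonical ensembles: `N` independent subsystems with few degrees of freedom each, with `r`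
  constraints `∑_i H_ji(x_i) ≤ e_j`, all `H_ji` convex.

The case `r = 1` of one-dimensional blocks is `OrliczBalls` (Kolesnikov and Milman for some levels);
sums of powers of invariant norms, `r = 1`, are `CompositeBodies` and `BlockSums` (page
`MP_dc1397_gt`). For non-homogeneous functions of blocks, and for `r ≥ 2`, this is new as far as we know:
the intersection of two such bodies may have a volume exponentially smaller than those of the two
bodies, so it is not a perturbation of one of them.

Method. Let first `d = 0`, let the `V_ji` be finite, nonnegative, with quadratic growth, and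
`S_j(z) = ∑_i V_ji(z_i)`, `z ∈ ∏ ℝ^{k_i}`. (1) The Gibbs densities `exp (-∑_j λ_j S_j(z) - ℓ(z))`, `λ_j > 0`, `ℓ` a
linear combination of the (invariant) equations which define the image of `L`, are products over
the blocks of log-concave densities with the symmetries of the blocks, so they satisfy a Poincare
inequality with a universal constant in isotropic position (starting files `OneSymmetric`,
`TensorTuples`, `SimultaneousConjugation`; for blocks of bounded dimension: Brascamp-Lieb inequality
on balls, and exponential decay). (2) Supporting functional: the volume `R(e', u)` of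
`{S_j ≤ e'_j, ℓ_k = u_k}` is log-concave, so `R(e', u) ≤ 2 R(e, 0) exp(λ·(e' - e) + ⟪a, u⟫)` for suitable
`λ_j > 0` and `a`. (3) With these `λ, a` consider for large `M` the body
`B = {(z, e', y) | S_j(z) ≤ e'_j, |y_i| ≤ (1 - (λ·e' + ⟪a, u(z)⟫) / M)/2, i ≤ M}`. Its image under
`(z, e', y) ↦ (z, y)` is the body over `(1 - (λ·S(z) + ⟪a, u⟫) / M)₊`, for which the concentration
of Lipschitz functions relative to the covariance, on a constant scale, follows from that for the
Gibbs density; so `B` has the same property (adding `r` dimensions, `CentredFibrations`: `lift`),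
and `K × cube` is, by (2), one of its large sections of codimension at most `r + s`. So the theorem of
`LargeSections` gives the concentration for `K`. (4) General `V_ji` by approximation (Lipschitz
regularisation, which preserves the symmetries). (5) Parameters: the fibre of maximal volume over
`t ∈ ℝ^d` is of the form considered before, and by `LargeSections` (`extend`) the concentration passes
from one large fibre to the whole body. (6) The images under linear maps with kernels of dimension
at most `p` and the passage from the concentration of all linear images to the isoperimetric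
inequality are those of `ImagesOfSections`.

The lemmas were formalised by helpers 27, 73, 78, 160, 170, 232, 234, 247, 263, 334, 383, 385, 426, 427, 438,
456, 568, 603, 614, 624, 678, 697, 712, 756, 896, 930, 933, 986, the authors of the lemmas of `LargeSections`,
and 483.
-/

set_option autoImplicit false

namespace Pool.Agent.Results.MP_8d00da_gt.FewInequalities

open MeasureTheory Set
open scoped ENNReal InnerProductSpace Matrix

/-- Euclidean space of dimension `n` -/
abbrev Euc (n : ℕ) : Type := EuclideanSpace ℝ (Fin n)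

/-- the uniform probability measure on `K` -/
noncomputable def unif {n : ℕ} (K : Set (Euc n)) : Measure (Euc n) :=
  (volume K)⁻¹ • volume.restrict K

/-- linear isometries of `ℝ^k` -/
abbrev Iso (k : ℕ) : Type := Euc k ≃ₗᵢ[ℝ] Euc k

/-- permutations and changes of signs of the coordinates -/
def signedPermutations (k : ℕ) : Set (Iso k) :=
  {g | ∃ σ : Equiv.Perm (Fin k), ∀ x i, |g x i| = |x (σ i)|}

/-- tuples of `q` real `N × N` matrices and `m` vectors of `ℝ^N`, with the Euclidean
(Hilbert-Schmidt) structure -/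
abbrev Tup (q m N : ℕ) : Type := EuclideanSpace ℝ ((Fin q × (Fin N × Fin N)) ⊕ (Fin m × Fin N))

/-- the matrix `X_j` of the tuple `x` -/
def mat {q m N : ℕ} (j : Fin q) (x : Tup q m N) : Matrix (Fin N) (Fin N) ℝ :=
  Matrix.of fun a b => x (Sum.inl (j, (a, b)))

/-- the vector `v_i` of the tuple `x` -/
def vec {q m N : ℕ} (i : Fin m) (x : Tup q m N) : Fin N → ℝ := fun a => x (Sum.inr (i, a))

/-- `g` is a rotation: `g ∈ SO(N)` -/
def Rotation {N : ℕ} (g : Matrix (Fin N) (Fin N) ℝ) : Prop := g * gᵀ = 1 ∧ g.det = 1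

/-- `y` is the tuple `x` rotated by `g`: `X_j ↦ g X_j gᵀ`, `v_i ↦ g v_i` -/
def Rotated {q m N : ℕ} (g : Matrix (Fin N) (Fin N) ℝ) (x y : Tup q m N) : Prop :=
  (∀ j, mat j y = g * mat j x * gᵀ) ∧ ∀ i, vec i y = g *ᵥ vec i x

/-- `ι` is a linear isometry of `ℝ^k` onto a rotation invariant space of tuples -/
def InvSubspace {k q m N : ℕ} (ι : Euc k →ₗᵢ[ℝ] Tup q m N) : Prop :=
  ∀ g : Matrix (Fin N) (Fin N) ℝ, Rotation g → ∀ x, ∃ y, Rotated g (ι x) (ι y)

/-- the rotations of the tuples, as isometries of `ℝ^k` -/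
def rotations {k q m N : ℕ} (ι : Euc k →ₗᵢ[ℝ] Tup q m N) : Set (Iso k) :=
  {e | ∃ g, Rotation g ∧ ∀ x, Rotated g (ι x) (ι (e x))}

/-- `Φ` is a linear isometric parametrisation of the Hermitian `D × D` matrices over `𝕜` (`ℝ` or `ℂ`),
with the Hilbert-Schmidt norm, by `ℝ^k` -/
structure HermFrame {𝕜 : Type} [RCLike 𝕜] {D k : ℕ} (Φ : Euc k →ₗ[ℝ] Matrix (Fin D) (Fin D) 𝕜) :
    Prop where
  herm : ∀ x, (Φ x).conjTranspose = Φ x
  surj : ∀ A : Matrix (Fin D) (Fin D) 𝕜, A.conjTranspose = A → ∃ x, Φ x = A
  iso : ∀ x, ∑ i, ∑ j, ‖Φ x i j‖ ^ 2 = ‖x‖ ^ 2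

/-- the conjugations by unitary (orthogonal) matrices, as isometries of `ℝ^k` -/
def conjugations {𝕜 : Type} [RCLike 𝕜] {D k : ℕ} (Φ : Euc k →ₗ[ℝ] Matrix (Fin D) (Fin D) 𝕜) :
    Set (Iso k) :=
  {g | ∃ U ∈ Matrix.unitaryGroup (Fin D) 𝕜, ∀ x, Φ (g x) = U * Φ x * U.conjTranspose}

/-- The admissible blocks: `ℝ^k` with a set `G` of symmetries which the functions of the block are
required to have: `k ≤ s` and any set, for example the empty one; permutations and changes of signs
of the coordinates; rotations of tuples of at most `s` matrices and `s N` vectors, `N ≥ 3`; conjugations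
of Hermitian matrices of order `D ≥ 3`. -/
inductive Block (s : ℕ) : ∀ k : ℕ, Set (Iso k) → Prop
  | small (k : ℕ) (G : Set (Iso k)) : k ≤ s → Block s k G
  | coordinates (k : ℕ) : 1 ≤ k → Block s k (signedPermutations k)
  | rotations (q m N k : ℕ) (ι : Euc k →ₗᵢ[ℝ] Tup q m N) : 3 ≤ N → q ≤ s → m ≤ s * N →
      InvSubspace ι → Block s k (rotations ι)
  | hermitian (𝕜 : Type) [RCLike 𝕜] (D k : ℕ) (Φ : Euc k →ₗ[ℝ] Matrix (Fin D) (Fin D) 𝕜) : 3 ≤ D →
      HermFrame Φ → Block s k (conjugations Φ)

/-- convex lower semicontinuous functions on `ℝ^k × ℝ^d` with values in `(-∞, ∞]` -/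
structure ConvexLSC {k d : ℕ} (V : Euc k → Euc d → EReal) : Prop where
  ne_bot : ∀ y t, V y t ≠ ⊥
  lsc : LowerSemicontinuous fun z : Euc k × Euc d => V z.1 z.2
  conv : ∀ (x y : Euc k) (t u : Euc d) (a : ℝ), 0 < a → a < 1 →
    V ((1 - a) • x + a • y) ((1 - a) • t + a • u) ≤
      ((1 - a : ℝ) : EReal) * V x t + (a : EReal) * V y u

/-- A system of `r` inequalities between sums of functions of `B` blocks: the dimensions `k_i` and the
symmetries of the blocks, a linear map `L = (L_i)` of `ℝ^n` into the product of the blocks, functions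
`V_ji(y, t)`, `y ∈ ℝ^{k_i}`, with parameters `t ∈ ℝ^d`, and real numbers `e_j`. -/
structure System (r n d B : ℕ) where
  dim : Fin B → ℕ
  symm : ∀ i, Set (Iso (dim i))
  map : Euc n →ₗ[ℝ] (∀ i, Euc (dim i))
  fn : Fin r → ∀ i, Euc (dim i) → Euc d → EReal
  bound : Fin r → ℝ

/-- the set `{(x, t) ∈ ℝ^n × ℝ^d | ∑_i V_ji(L_i x, t) ≤ e_j for all j < r}` -/
def System.set {r n d B : ℕ} (S : System r n d B) : Set (Euc n × Euc d) :=
  {z | ∀ j, ∑ i, S.fn j i (S.map z.1 i) z.2 ≤ (S.bound j : EReal)}

/-- the functions have the symmetries of the blocks -/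
def System.Invariant {r n d B : ℕ} (S : System r n d B) : Prop :=
  ∀ i, ∀ g ∈ S.symm i, ∀ j y t, S.fn j i (g y) t = S.fn j i y t

/-- For every symmetry `g` of the block `i` and all `y ∈ ℝ^{k_i}` there is `x` with `L_i x = g y - y` and
`L_j x = 0` for `j ≠ i` (the linear equations of the image of `L` are invariant; no condition if `L` is
surjective). -/
def System.Compatible {r n d B : ℕ} (S : System r n d B) : Prop :=
  ∀ i, ∀ g ∈ S.symm i, ∀ y, ∃ x, S.map x i = g y - y ∧ ∀ j, j ≠ i → S.map x j = 0

/-- at most `s` parameters, `∑ k_i ≤ n + s`, admissible blocks, and convex lower semicontinuous functions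
with the symmetries of the blocks -/
structure System.Admissible {r n d B : ℕ} (s : ℕ) (S : System r n d B) : Prop where
  params : d ≤ s
  dims : ∑ i, S.dim i ≤ n + s
  block : ∀ i, Block s (S.dim i) (S.symm i)
  convex : ∀ j i, ConvexLSC (S.fn j i)
  invariant : S.Invariant
  compatible : S.Compatible

/-- bounded sets with nonempty interior given by an admissible system, in linear coordinates `ψ` -/
structure BlockBody (r s : ℕ) {m : ℕ} (K : Set (Euc m)) : Prop where
  bdd : Bornology.IsBounded K
  int : (interior K).Nonempty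
  rep : ∃ (n d B : ℕ) (S : System r n d B) (ψ : (Euc n × Euc d) ≃ₗ[ℝ] Euc m), S.Admissible s ∧
    K = ψ '' S.set

/-- Minkowski (exterior) boundary measure `μ⁺(A)` -/
noncomputable def bdry {n : ℕ} (μ : Measure (Euc n)) (A : Set (Euc n)) : ℝ≥0∞ :=
  Filter.liminf (fun ε : ℝ => (μ (Metric.thickening ε A) - μ A) / ENNReal.ofReal ε)
    (nhdsWithin 0 (Set.Ioi 0))

/-- the halfspace `⟪u, x⟫ ≤ b` -/
def halfspace {n : ℕ} (u : Euc n) (b : ℝ) : Set (Euc n) := {x | inner ℝ u x ≤ b}

/-- the inequality of Kannan, Lovasz and Simonovits with constant `c` for the uniform measure `μ` on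
`K` and sets of measure one half: if `t min(μ H, 1 - μ H) ≤ μ⁺(H)` for all halfspaces `H` then
`c t min(μ A, 1 - μ A) ≤ μ⁺(A)` for all measurable `A` with `μ A = 1/2` -/
def KLSHalf {n : ℕ} (c : ℝ) (K : Set (Euc n)) : Prop :=
  ∀ t : ℝ≥0∞, (∀ (u : Euc n) (b : ℝ), u ≠ 0 →
      t * min (unif K (halfspace u b)) (1 - unif K (halfspace u b)) ≤
        bdry (unif K) (halfspace u b)) →
    ∀ A : Set (Euc n), MeasurableSet A → unif K A = 1 / 2 →
      ENNReal.ofReal c * t * min (unif K A) (1 - unif K A) ≤ bdry (unif K) A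

theorem unif_prob {n : ℕ} {K : Set (Euc n)} (h1 : IsCompact K) (h3 : (interior K).Nonempty) :
    IsProbabilityMeasure (unif K) :=
  Pool.Agent.R754.KG.un_prob (Pool.Agent.R755.KF.vol_ne h3) h1.measure_lt_top.ne

theorem rotated_iff {q m N : ℕ} (g : Matrix (Fin N) (Fin N) ℝ) (x y : Tup q m N) :
    Rotated g x y ↔ y = Pool.Agent.TH591.TT.RR g x := by
  constructor
  · rintro ⟨h1, h2⟩
    refine Pool.Agent.TH591.TT.ext_mv h1 ?_
    ext a i
    exact congrFun (h2 i) a
  · intro h1
    subst h1
    exact ⟨fun j => rfl, fun i => rfl⟩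

theorem rotation_iff {N : ℕ} (g : Matrix (Fin N) (Fin N) ℝ) :
    Rotation g ↔ Pool.Agent.TH591.TT.IsSO g := by
  constructor
  · rintro ⟨h1, h2⟩
    exact ⟨(Matrix.mem_orthogonalGroup_iff (Fin N) ℝ).2 h1, h2⟩
  · rintro ⟨h1, h2⟩
    exact ⟨Pool.Agent.TH591.TT.orth1 h1, h2⟩

theorem bk_of {s k : ℕ} {G : Set (Iso k)} (h : Block s k G) : Pool.Agent.N483.KM.Bk s k G := by
  cases h with
  | small _ _ h => exact .small k G h
  | coordinates _ h => exact .coord k h
  | rotations q m N _ ι h1 h2 h3 h4 =>
    have h5 : rotations ι = Pool.Agent.TH591.TT.GS (κ := Fin k) ι := by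
      ext e
      constructor
      · rintro ⟨g, hg, he⟩
        exact ⟨g, (rotation_iff g).1 hg, fun x => (rotated_iff g _ _).1 (he x)⟩
      · rintro ⟨g, hg, he⟩
        exact ⟨g, (rotation_iff g).2 hg, fun x => (rotated_iff g _ _).2 (he x)⟩
    rw [h5]
    refine .rot q m N k ι h1 h2 h3 fun g hg x => ?_
    obtain ⟨y, hy⟩ := h4 g ((rotation_iff g).2 hg) x
    exact ⟨y, (rotated_iff g _ _).1 hy⟩
  | hermitian 𝕜 D _ Φ h1 h2 => exact .herm 𝕜 D k Φ h1 ⟨h2.herm, h2.surj, h2.iso⟩

theorem vbd_of {r s m : ℕ} {K : Set (Euc m)} (h : BlockBody r s K) :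
    Pool.Agent.N483.KM.VBd r s m K := by
  obtain ⟨n, d, B, S, ψ, h1, h2⟩ := h.rep
  refine ⟨B, n, d, S.dim, S.symm, S.map, S.fn, S.bound, ψ, h1.params, h1.dims,
    fun i => bk_of (h1.block i), fun j i => ⟨(h1.convex j i).ne_bot, (h1.convex j i).lsc,
    (h1.convex j i).conv⟩, h1.invariant, fun i g hg y => ?_, h.bdd, h.int, h2⟩
  obtain ⟨x, hx, hx'⟩ := h1.compatible i g hg y
  refine ⟨x, funext fun j => ?_⟩
  by_cases hj : j = i
  · subst hj
    rw [Pi.single_eq_same]
    exact hx
  · rw [Pi.single_eq_of_ne hj]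
    exact hx' j hj

theorem affine_eq {m n : ℕ} (T : Euc m →ᵃ[ℝ] Euc n) (K : Set (Euc m)) :
    T '' K = (fun x => T 0 + T.linear x) '' K := by
  refine image_congr fun x _ => ?_
  have h := T.map_vadd 0 x
  rw [vadd_eq_add, add_zero] at h
  rw [h, vadd_eq_add, add_comm]

theorem star_of (r s p : ℕ) : ∃ c : ℝ, 0 < c ∧ ∀ (m n : ℕ) (K : Set (Euc m)) (T : Euc m →ᵃ[ℝ] Euc n),
    BlockBody r s K → m ≤ n + p → Function.Surjective T → IsCompact (T '' K) ∧
    Convex ℝ (T '' K) ∧ (interior (T '' K)).Nonempty ∧
    Pool.Agent.Y506.RG.Star c (Pool.Agent.Y506.PV.ind (T '' K)) := by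
  obtain ⟨c, hc, H⟩ := Pool.Agent.N483.KM.vbd_star Pool.Agent.N483.KM.gddR r s p
  refine ⟨c, hc, fun m n K T hK hm hT => ?_⟩
  rw [affine_eq]
  exact H m n K T.linear (T 0) (vbd_of hK) hm (by rwa [AffineMap.linear_surjective_iff])

/-- the functional `⟪v, x⟫` as a map to `ℝ^1` -/
noncomputable def ridge {m : ℕ} (v : Euc m) : Euc m →ₗ[ℝ] Euc 1 where
  toFun x := WithLp.toLp 2 fun _ => ⟪v, x⟫_ℝ
  map_add' x y := by
    ext i
    simp [inner_add_right]
  map_smul' c x := by
    ext i
    simp [inner_smul_right]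

/-- the coordinates `(x, 0) ↦ x` -/
def noParameters (m : ℕ) : (Euc m × Euc 0) ≃ₗ[ℝ] Euc m where
  toFun z := z.1
  map_add' x y := rfl
  map_smul' c x := rfl
  invFun x := (x, 0)
  left_inv z := Prod.ext rfl (Subsingleton.elim _ _)
  right_inv x := rfl

/-- Example: bounded sets with nonempty interior
`{x ∈ ℝ^m | ∑_{i < N} V_ji(⟪v_i, x⟫) ≤ e_j for all j < r}`, `N ≤ m + s`, with arbitrary convex lower
semicontinuous functions `V_ji : ℝ → (-∞, ∞]`. -/
theorem sums_of_ridge_functions (r s m N : ℕ) (v : Fin N → Euc m) (V : Fin r → Fin N → ℝ → EReal)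
    (e : Fin r → ℝ) (hs : 1 ≤ s) (hN : N ≤ m + s) (h1 : ∀ j i t, V j i t ≠ ⊥)
    (h2 : ∀ j i, LowerSemicontinuous (V j i))
    (h3 : ∀ j i, ∀ x y t : ℝ, 0 < t → t < 1 → V j i ((1 - t) * x + t * y) ≤
      ((1 - t : ℝ) : EReal) * V j i x + (t : EReal) * V j i y)
    {K : Set (Euc m)} (hK : K = {x | ∀ j, ∑ i, V j i ⟪v i, x⟫_ℝ ≤ (e j : EReal)})
    (hb : Bornology.IsBounded K) (hi : (interior K).Nonempty) : BlockBody r s K := by
  refine ⟨hb, hi, m, 0, N, ⟨fun _ => 1, fun _ => ∅, LinearMap.pi fun i => ridge (v i),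
    fun j i y _ => V j i (y 0), e⟩, noParameters m, ⟨Nat.zero_le _, by simpa using hN,
    fun i => .small 1 ∅ hs, fun j i => ⟨fun y t => h1 j i _, ?_, fun x y t u a ha ha1 => ?_⟩,
    fun i g hg => absurd hg (notMem_empty g), fun i g hg => absurd hg (notMem_empty g)⟩, ?_⟩
  · exact (h2 j i).comp (by fun_prop : Continuous fun z : Euc 1 × Euc 0 => z.1 0)
  · have h := h3 j i (x 0) (y 0) a ha ha1
    simpa using h
  · rw [hK]
    ext x
    constructor
    · intro hx
      exact ⟨(x, 0), fun j => hx j, rfl⟩
    · rintro ⟨z, hz, rfl⟩ j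
      exact hz j

theorem coe_sum {ι : Type} (s : Finset ι) (f : ι → ℝ) :
    ((∑ i ∈ s, f i : ℝ) : EReal) = ∑ i ∈ s, (f i : EReal) :=
  map_sum (⟨⟨Real.toEReal, rfl⟩, EReal.coe_add⟩ : ℝ →+ EReal) f s

/-- Example: the intersections of `r` balls of weighted `ℓ_p` norms, `p ≥ 1`, with different exponents,
centres and weights: `{x ∈ ℝ^m | ∑_i w_ji |x_i - y_ji|^{p_ji} ≤ e_j for all j < r}`. -/
theorem intersections_of_lp_balls (r m : ℕ) (w y p : Fin r → Fin m → ℝ) (e : Fin r → ℝ)
    (hw : ∀ j i, 0 ≤ w j i) (hp : ∀ j i, 1 ≤ p j i) {K : Set (Euc m)}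
    (hK : K = {x | ∀ j, ∑ i, w j i * |x i - y j i| ^ p j i ≤ e j})
    (hb : Bornology.IsBounded K) (hi : (interior K).Nonempty) : BlockBody r 1 K := by
  refine sums_of_ridge_functions r 1 m m (fun i => EuclideanSpace.single i 1)
    (fun j i t => ((w j i * |t - y j i| ^ p j i : ℝ) : EReal)) e le_rfl (Nat.le_succ m)
    (fun j i t => EReal.coe_ne_bot _) (fun j i => ?_) (fun j i a b t ht ht1 => ?_) ?_ hb hi
  · refine (continuous_coe_real_ereal.comp ?_).lowerSemicontinuous
    exact continuous_const.mul (((continuous_id.sub continuous_const).abs).rpow_const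
      fun _ => Or.inr (by linarith [hp j i]))
  · rw [← EReal.coe_mul, ← EReal.coe_mul, ← EReal.coe_add, EReal.coe_le_coe_iff]
    have h1 := (convexOn_rpow (hp j i)).2 (abs_nonneg (a - y j i)) (abs_nonneg (b - y j i))
      (by linarith : (0 : ℝ) ≤ 1 - t) ht.le (by ring)
    have h2 : |(1 - t) * a + t * b - y j i| ≤ (1 - t) * |a - y j i| + t * |b - y j i| := by
      have h3 : (1 - t) * a + t * b - y j i = (1 - t) * (a - y j i) + t * (b - y j i) := by ring
      rw [h3]
      refine (abs_add_le _ _).trans (le_of_eq ?_)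
      rw [abs_mul, abs_mul, abs_of_pos ht, abs_of_pos (by linarith : (0 : ℝ) < 1 - t)]
    have h4 := Real.rpow_le_rpow (abs_nonneg _) h2 (by linarith [hp j i] : (0 : ℝ) ≤ p j i)
    simp only [smul_eq_mul] at h1
    have h5 := mul_le_mul_of_nonneg_left (h4.trans h1) (hw j i)
    linarith
  · rw [hK]
    ext x
    refine forall_congr' fun j => ?_
    simp only [EuclideanSpace.inner_single_left, map_one, one_mul]
    rw [← coe_sum, EReal.coe_le_coe_iff]

/-- from the functional inequality to sets of measure one half -/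
theorem half_of : ∀ c : ℝ, 0 < c → ∃ c' : ℝ, 0 < c' ∧ ∀ (n : ℕ) (K : Set (Euc n)), IsCompact K →
    Convex ℝ K → (interior K).Nonempty →
    Pool.Agent.Y506.RG.Star c (Pool.Agent.Y506.PV.ind K) → KLSHalf c' K := by
  intro c hc
  obtain ⟨c', hc', H'⟩ := Pool.Agent.Y532.PV.che c hc
  refine ⟨c', hc', fun n K h1 h2 h3 h4 => ?_⟩
  intro t ht A hA hA2
  have hprob : IsProbabilityMeasure (unif K) :=
    Pool.Agent.Y506.KS.unif_prob (Pool.Agent.Y506.PV.vol_pos h3) h1.measure_lt_top.ne
  have key := H' n _ h1 h2 h3 h4 (unif K) rfl t ht A hA2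
  refine le_trans ?_ key
  calc ENNReal.ofReal c' * t * min (unif K A) (1 - unif K A)
      ≤ ENNReal.ofReal c' * t * 1 := mul_le_mul_right ((min_le_left _ _).trans prob_le_one) _
    _ = _ := mul_one _

/-- **KLS (Cheeger form) for bodies given by few inequalities.** For all `r, s, p` there is a constant
`c > 0` such that for all bodies `K ⊂ ℝ^m` given by `r` inequalities between sums of convex functions of
blocks and at most `s` parameters (`BlockBody r s`) and all affine maps `T` of `ℝ^m` onto `ℝ^n`, `m ≤ n + p`, the convex body `T K`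
satisfies the inequality of Kannan, Lovasz and Simonovits with constant `c` for all sets of measure
one half. -/
theorem result : ∀ r s p : ℕ, ∃ c : ℝ, 0 < c ∧
    ∀ (m n : ℕ) (K : Set (Euc m)) (T : Euc m →ᵃ[ℝ] Euc n), BlockBody r s K → m ≤ n + p →
    Function.Surjective T → KLSHalf c (T '' K) := by
  intro r s p
  obtain ⟨c, hc, H⟩ := star_of r s p
  obtain ⟨c', hc', H'⟩ := half_of c hc
  refine ⟨c', hc', fun m n K T hK hm hT => ?_⟩
  obtain ⟨h1, h2, h3, h4⟩ := H m n K T hK hm hT
  exact H' n _ h1 h2 h3 h4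

end Pool.Agent.Results.MP_8d00da_gt.FewInequalities
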