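import Pool.Agent.N483.KM.FinP

/-!
# The KLS inequality (Cheeger form) for a body and for one of its large sections

Q1, for sets `A` of measure one half, for the bodies of a class `Sectional` of convex bodies which is closed
under the following operations. The constant depends on `s` and on the number `h` of operations (and
on `A`), but not on the dimensions.

* (A) Large sections (`large`; this is new): for a body `K ⊂ ℝ^N × ℝ^j`, `j ≤ s`, of the class, the section
  `K_t = {x | (x, t) ∈ K}` belongs to the class if the parallel sections have volume at most `s |K_t|`.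
  So the class is closed under all sections of bounded codimension which are not much smaller than
  the largest section parallel to them.
* (B) Extensions (`extend`; this is new): conversely, every convex body `K ⊂ ℝ^N × ℝ^j`, `j ≤ s`, belongs to
  the class if ONE section `K_t` does, whose parallel sections have volume at most `s |K_t|`. (The
  theorem of `CentredFibrations` and its predecessors is the case where all the sections belong to
  the class.) So, up to constants, the inequality of Kannan, Lovasz and Simonovits for a body is
  equivalent to the inequality for one of its large sections of bounded codimension.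
* (C) Central sections (`central`): the sections of codimension at most `s` through the barycentre.
* (D) Images under affine maps with kernels of dimension at most `s` (`image`), and convex bodies
  with an image in the class under a linear map with a kernel of dimension at most `s` (`lift`).

The class starts with the convex bodies with `WeakPoincare A`, that is with weak Poincare
inequalities `Var v ≤ δ + A(δ) σ E ‖∇ v‖²` for all linear images with variances at most `σ`, all `δ > 0`
and `|v| ≤ 1`, where `A` is any function which is fixed in advance. Bodies with a Poincare inequality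
with constant `c₀` in isotropic position have `A(δ) = c₀ / (4 δ)`. All bodies of the class satisfy such
inequalities, with another function `A` (`weakPoincare`). So (A) says that the inequality of Kannan, Lovasz and
Simonovits is inherited by large sections: for instance all central sections of bounded codimension
of the bodies of `CentredFibrations`, `CompositeBodies`, `Particles`, ... (bodies with a product of
symmetries, unit balls of 1-symmetric or unitarily invariant norms, polytopes with few facets and
so on) satisfy it; the sections have no symmetry. By (B) it passes from there to all convex bodies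
which have such a body as a large section; one may go from body to section to body and so on.

Method. Let `C = K_t` be a section of codimension `j` of a body `K ⊂ ℝ^N × ℝ^j` for which concentration is
known, and let `P` be a linear map on `ℝ^N` such that `P x` has variances at most `σ` on `C`. (1)
Regression: there is a linear map `B` such that `P x - B t` has variances at most `C' σ` on `K`, with `C'`
depending on `j` and on the ratio of `|K_t|` and the maximal volume of the parallel sections (bounds for
isotropic log-concave densities in dimension `j + 1`). So the same is true for all other large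
sections, and the means of `P x - B t` on them are near to each other. (2) Let `r` be the
concentration radius of the law `ν_t` of `P x - B t` on `K_t`: the number for which all sets of
measure at least `p` have `r`-neighbourhoods of measure more than one half, for a fixed small `p`.
Prekopa-Leindler inequality in the Gaussian channel: all sets of measure `4^-(i+j0)` have such
neighbourhoods with radius `(9/8)^i r` (one step: the density of `X + √h Z` on the event `X ∈ B`, raised
to a power, times that of `X + √h Z`). So Lipschitz functions have fourth moments `C r⁴`, and smoothing with posterior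
means (whose gradients are controlled by posterior variances, and these by the Brascamp-Lieb
inequality) gives weak Poincare inequalities `Var f ≤ C / M^{3/2} + M r² E‖∇f‖² / 64` for `|f| ≤ 1`, all
`M ≥ 1`. (3) For two sections `a, b` with `|K_m| ≤ (1 + η) √(|K_a| |K_b|)` for the one half way between them,
the affinity of the laws of `P x - B t + √h Z` satisfies `1 - aff ≤ C (η + D²/h + δ)` at the scale
`h = M r²` (as in `CentredFibrations`, with an error linear in the error `δ` of the weak Poincare
inequality), and `h (η + 1 - aff_h)` is nondecreasing in `h`, by the Prekopa-Leindler inequality and the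
heat equation. Since `M · M^{-3/2} → 0`, also the affinity at a small multiple of `r²` is near to one,
if `r` is much larger than `√σ`. (4) So if the concentration radius of one section in a small window of
parallel sections is (nearly) the largest one and much larger than `√σ`, then there is a Lipschitz function with constant
`4 / r` and a variance bounded below on all sections of the window, hence on `K`, which contradicts
the concentration for `K`. For sections of maximal volume the window has a definite share of `K`.
(5) All other large sections are connected with the maximal one by a bounded number of steps as in (3),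
and the concentration radii of two neighbours differ by at most a constant factor. (6) Lipschitz
functions of `P x` on `K_t` have fourth moments at most `C σ²`, so they concentrate. (7) Extensions: by
(5) the concentration radius of one large section bounds those of all other large sections, and the
concentration on all large sections implies that on `K` (as in `CentredFibrations`). The passage from
the concentration of all linear images to the isoperimetric inequality is that of `ImagesOfSections`.

Formalised by helpers 27, 123, 130, 152, 157, 227, 232, 264, 277, 306, 342, 348, 383, 401, 434, 456, 488, 521,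
523, 546, 692, 833, 868 and 483 with the starting library (modules `R755.KF`, `R755.KS`, `R754.KG`).
-/

set_option autoImplicit false

namespace Pool.Agent.Results.MP_8d00da_gt.LargeSections

open MeasureTheory Set
open scoped ENNReal InnerProductSpace

/-- Euclidean space of dimension `n` -/
abbrev Euc (n : ℕ) : Type := EuclideanSpace ℝ (Fin n)

/-- the uniform probability measure on `K` -/
noncomputable def unif {n : ℕ} (K : Set (Euc n)) : Measure (Euc n) :=
  (volume K)⁻¹ • volume.restrict K

/-- The inequalities `Var v(P x) ≤ δ + A(δ) σ E ‖∇ v(P x)‖²` for all `δ > 0`, all linear images `P x` of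
`x` (of law `μ`), all bounds `σ` for the variances of the marginals of `P x` in directions of length
one, and all `C¹` functions `v` with `|v| ≤ 1` and bounded gradient. They follow, with
`A(δ) = c₀ / (4 δ)`, from the Poincare inequality with constant `c₀` for `μ` in isotropic position. -/
def WeakPoincare (A : ℝ → ℝ) {M : ℕ} (μ : Measure (Euc M)) : Prop :=
  ∀ δ : ℝ, 0 < δ → ∀ (k : ℕ) (P : Euc M →ₗ[ℝ] Euc k) (σ : ℝ), 0 < σ →
  (∀ θ : Euc k, ‖θ‖ = 1 → ProbabilityTheory.variance (fun x => ⟪P x, θ⟫_ℝ) μ ≤ σ) →
  ∀ (v : Euc k → ℝ) (C : ℝ), ContDiff ℝ 1 v → (∀ y, |v y| ≤ 1) → (∀ y, ‖fderiv ℝ v y‖ ≤ C) →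
  ProbabilityTheory.variance (fun x => v (P x)) μ ≤ δ + A δ * σ * ∫ x, ‖fderiv ℝ v (P x)‖ ^ 2 ∂μ

/-- convex bodies -/
structure Body {n : ℕ} (K : Set (Euc n)) : Prop where
  comp : IsCompact K
  conv : Convex ℝ K
  int : (interior K).Nonempty

/-- the section (fibre) over `t` of the set `K ⊂ ℝⁿ ≅ ℝ^N × ℝ^j` -/
def fibre {N j n : ℕ} (e : (Euc N × Euc j) ≃ₗ[ℝ] Euc n) (K : Set (Euc n)) (t : Euc j) :
    Set (Euc N) := {x | e (x, t) ∈ K}

/-- The class of bodies. It contains the convex bodies whose uniform measure satisfies
`WeakPoincare A` (`base`). Bodies of depth `h + 1` are obtained from those of depth `h` by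
* images under affine maps with kernels of dimension at most `s` (`image`), and adding at most `s`
  dimensions (`lift`: all convex bodies `K` with a linear image, under a map with a kernel of dimension
  at most `s`, of depth `h`);
* `large`: the sections of codimension `j ≤ s` such that the parallel sections are at most `s` times
  larger;
* `extend`: all convex bodies `K ⊂ ℝ^N × ℝ^j`, `j ≤ s`, which have one section parallel to `ℝ^N` of depth
  `h` such that the parallel sections are at most `s` times larger;
* `central`: the sections of codimension `j ≤ s` through the barycentre. -/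
inductive Sectional (A : ℝ → ℝ) (s : ℕ) : ℕ → ∀ {n : ℕ}, Set (Euc n) → Prop
  | base {n : ℕ} {K : Set (Euc n)} : Body K → WeakPoincare A (unif K) → Sectional A s 0 K
  | up {h n : ℕ} {K : Set (Euc n)} : Sectional A s h K → Sectional A s (h + 1) K
  | image {h m n : ℕ} {K : Set (Euc m)} (T : Euc m →ₗ[ℝ] Euc n) (w : Euc n) : m ≤ n + s →
      Function.Surjective T → Sectional A s h K →
      Sectional A s (h + 1) ((fun x => w + T x) '' K)
  | lift {h m n : ℕ} {K : Set (Euc m)} (T : Euc m →ₗ[ℝ] Euc n) : m ≤ n + s →
      Function.Surjective T → Body K → Sectional A s h (T '' K) → Sectional A s (h + 1) K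
  | large {h N j n : ℕ} {K : Set (Euc n)} (e : (Euc N × Euc j) ≃ₗ[ℝ] Euc n) (t : Euc j) : j ≤ s →
      Sectional A s h K → (∀ t', volume (fibre e K t') ≤ s * volume (fibre e K t)) →
      Sectional A s (h + 1) (fibre e K t)
  | extend {h N j n : ℕ} {K : Set (Euc n)} (e : (Euc N × Euc j) ≃ₗ[ℝ] Euc n) (t : Euc j) : j ≤ s →
      Body K → (∀ t', volume (fibre e K t') ≤ s * volume (fibre e K t)) →
      Sectional A s h (fibre e K t) → Sectional A s (h + 1) K
  | central {h N j n : ℕ} {K : Set (Euc n)} (e : (Euc N × Euc j) ≃ₗ[ℝ] Euc n) (t : Euc j) : j ≤ s →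
      Sectional A s h K → (∀ θ : Euc j, ∫ z, ⟪(e.symm z).2, θ⟫_ℝ ∂(unif K) = ⟪t, θ⟫_ℝ) →
      Sectional A s (h + 1) (fibre e K t)

/-- Minkowski (exterior) boundary measure `μ⁺(A)` -/
noncomputable def bdry {n : ℕ} (μ : Measure (Euc n)) (A : Set (Euc n)) : ℝ≥0∞ :=
  Filter.liminf (fun ε : ℝ => (μ (Metric.thickening ε A) - μ A) / ENNReal.ofReal ε)
    (nhdsWithin 0 (Set.Ioi 0))

/-- the halfspace `⟪u, x⟫ ≤ b` -/
def halfspace {n : ℕ} (u : Euc n) (b : ℝ) : Set (Euc n) := {x | inner ℝ u x ≤ b}

/-- the inequality of Kannan, Lovasz and Simonovits with constant `c` for the uniform measure `μ` on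
`K` and sets of measure one half: if `t min(μ H, 1 - μ H) ≤ μ⁺(H)` for all halfspaces `H` then
`c t min(μ A, 1 - μ A) ≤ μ⁺(A)` for all measurable `A` with `μ A = 1/2` -/
def KLSHalf {n : ℕ} (c : ℝ) (K : Set (Euc n)) : Prop :=
  ∀ t : ℝ≥0∞, (∀ (u : Euc n) (b : ℝ), u ≠ 0 →
      t * min (unif K (halfspace u b)) (1 - unif K (halfspace u b)) ≤
        bdry (unif K) (halfspace u b)) →
    ∀ A : Set (Euc n), MeasurableSet A → unif K A = 1 / 2 →
      ENNReal.ofReal c * t * min (unif K A) (1 - unif K A) ≤ bdry (unif K) A

theorem unif_prob {n : ℕ} {K : Set (Euc n)} (h1 : IsCompact K) (h3 : (interior K).Nonempty) :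
    IsProbabilityMeasure (unif K) :=
  Pool.Agent.R754.KG.un_prob (Pool.Agent.R755.KF.vol_ne h3) h1.measure_lt_top.ne

theorem cy_of {A : ℝ → ℝ} {s h n : ℕ} {K : Set (Euc n)} (H : Sectional A s h K) :
    Pool.Agent.N483.KM.Cy A 1 (1 / ((s : ℝ) + 1)) s s h n K := by
  have hε : (0 : ℝ) < 1 / ((s : ℝ) + 1) := by positivity
  induction H with
  | base hb h4 =>
    obtain ⟨h1, h2, h3⟩ := hb
    have hp := unif_prob h1 h3
    obtain ⟨B, hB⟩ := Pool.Agent.R755.KS.un_bdd h1
    exact .base _ _ h1 h2 h3 (Pool.Agent.R755.KS.km_of_wpf (μ := unif _) hB h4)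
  | up _ ih => exact .up _ _ _ ih
  | image T w hm hT _ ih => exact .image _ _ _ _ T w hm hT ih
  | lift T hm hT hb _ ih => exact .lift _ _ _ _ T hm hT hb.comp hb.conv hb.int ih
  | large e t hj _ ht ih =>
    obtain ⟨h1, h2, h3⟩ := Pool.Agent.N483.KM.cy_body Pool.Agent.N483.KM.cclR one_pos hε ih
    exact .sec _ _ _ _ _ e t hj ih
      (Pool.Agent.N483.KM.large_of (Pool.Agent.R755.KS.cb_pre e h1 h2 h3) ht)
  | extend e t hj hb ht _ ih =>
    exact .ext _ _ _ _ _ e t hj hb.comp hb.conv hb.int
      (Pool.Agent.N483.KM.large_of (Pool.Agent.R755.KS.cb_pre e hb.comp hb.conv hb.int) ht) ih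
  | central e t hj _ ht ih =>
    obtain ⟨h1, h2, h3⟩ := Pool.Agent.N483.KM.cy_body Pool.Agent.N483.KM.cclR one_pos hε ih
    exact .bar _ _ _ _ _ e t hj ih
      (Pool.Agent.N483.KM.bar_of e (Pool.Agent.R755.KS.cb_pre e h1 h2 h3) ht)

/-- large fibres are bodies -/
theorem fibre_body {N j n s : ℕ} (e : (Euc N × Euc j) ≃ₗ[ℝ] Euc n) {K : Set (Euc n)} {t : Euc j}
    (hK : Body K) (ht : ∀ t', volume (fibre e K t') ≤ s * volume (fibre e K t)) :
    Body (fibre e K t) := by
  have hF := Pool.Agent.R755.KS.cb_pre e hK.comp hK.conv hK.int
  have hv := Pool.Agent.N483.KM.large_pos (by positivity : (0 : ℝ) < 1 / ((s : ℝ) + 1)) hF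
    (Pool.Agent.N483.KM.large_of hF ht)
  exact ⟨Pool.Agent.R755.KF.sl_comp hF t, Pool.Agent.R755.KF.sl_conv hF t,
    Pool.Agent.R755.KF.int_of_vol (Pool.Agent.R755.KF.sl_conv hF t) hv⟩

/-- from the functional inequality to sets of measure one half -/
theorem half_of : ∀ c : ℝ, 0 < c → ∃ c' : ℝ, 0 < c' ∧ ∀ (n : ℕ) (K : Set (Euc n)), IsCompact K →
    Convex ℝ K → (interior K).Nonempty →
    Pool.Agent.Y506.RG.Star c (Pool.Agent.Y506.PV.ind K) → KLSHalf c' K := by
  intro c hc
  obtain ⟨c', hc', H'⟩ := Pool.Agent.Y532.PV.che c hc
  refine ⟨c', hc', fun n K h1 h2 h3 h4 => ?_⟩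
  intro t ht A hA hA2
  have hprob : IsProbabilityMeasure (unif K) :=
    Pool.Agent.Y506.KS.unif_prob (Pool.Agent.Y506.PV.vol_pos h3) h1.measure_lt_top.ne
  have key := H' n _ h1 h2 h3 h4 (unif K) rfl t ht A hA2
  refine le_trans ?_ key
  calc ENNReal.ofReal c' * t * min (unif K A) (1 - unif K A)
      ≤ ENNReal.ofReal c' * t * 1 := mul_le_mul_right ((min_le_left _ _).trans prob_le_one) _
    _ = _ := mul_one _

/-- **KLS (Cheeger form) for bodies and their large sections.** For all functions `A : ℝ → ℝ` and all `s, h`
there is a constant `c > 0` such that all bodies of the class `Sectional A s h`, of any dimension,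
satisfy the inequality of Kannan, Lovasz and Simonovits with constant `c` for all sets of measure one
half. -/
theorem result : ∀ (A : ℝ → ℝ) (s h : ℕ), ∃ c : ℝ, 0 < c ∧
    ∀ (n : ℕ) (K : Set (Euc n)), Sectional A s h K → KLSHalf c K := by
  intro A s h
  have hε : (0 : ℝ) < 1 / ((s : ℝ) + 1) := by positivity
  obtain ⟨c, hc, H⟩ := Pool.Agent.N483.KM.cyR Pool.Agent.N483.KM.cclR A 1 (1 / ((s : ℝ) + 1)) one_pos hε s s h
  obtain ⟨c', hc', H'⟩ := half_of c hc
  refine ⟨c', hc', fun n K hK => ?_⟩
  obtain ⟨h1, h2, h3, h4⟩ := H n K (cy_of hK)
  exact H' n K h1 h2 h3 h4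

/-- all bodies of the class satisfy weak Poincare inequalities -/
theorem weakPoincare : ∀ (A : ℝ → ℝ) (s h : ℕ), ∃ A' : ℝ → ℝ, ∀ (n : ℕ) (K : Set (Euc n)),
    Sectional A s h K → Body K ∧ WeakPoincare A' (unif K) := by
  intro A s h
  have hε : (0 : ℝ) < 1 / ((s : ℝ) + 1) := by positivity
  obtain ⟨A', -, H⟩ := Pool.Agent.N483.KM.cy_km Pool.Agent.N483.KM.cclR A 1 (1 / ((s : ℝ) + 1)) one_pos hε s s h
  refine ⟨A', fun n K hK => ?_⟩
  obtain ⟨h1, h2, h3, h4⟩ := H n K (cy_of hK)
  have hp := unif_prob h1 h3
  obtain ⟨B, hB⟩ := Pool.Agent.R755.KS.un_bdd h1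
  exact ⟨⟨h1, h2, h3⟩, Pool.Agent.R755.KS.wpf_of_km (μ := unif K) hB h4⟩

/-- The direct consequence for large sections of a body: if `K ⊂ ℝ^N × ℝ^j`, `j ≤ s`, satisfies
`WeakPoincare A` then `K_t` satisfies the inequality of Kannan, Lovasz and Simonovits, with a constant
which depends on `A` and `s`, if no parallel section is larger than `s |K_t|`. -/
theorem large_section : ∀ (A : ℝ → ℝ) (s : ℕ), ∃ c : ℝ, 0 < c ∧ ∀ (N j n : ℕ)
    (e : (Euc N × Euc j) ≃ₗ[ℝ] Euc n) (K : Set (Euc n)) (t : Euc j), j ≤ s → Body K →
    WeakPoincare A (unif K) → (∀ t', volume (fibre e K t') ≤ s * volume (fibre e K t)) →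
    KLSHalf c (fibre e K t) := by
  intro A s
  obtain ⟨c, hc, H⟩ := result A s 1
  exact ⟨c, hc, fun N j n e K t hj hK hA ht => H _ _ (.large e t hj (.base hK hA) ht)⟩

/-- The direct consequence for extensions: if `K ⊂ ℝ^N × ℝ^j`, `j ≤ s`, is a convex body and the section
`K_t` satisfies `WeakPoincare A` and no parallel section is larger than `s |K_t|`, then `K` satisfies the
inequality of Kannan, Lovasz and Simonovits, with a constant which depends on `A` and `s`. -/
theorem extension : ∀ (A : ℝ → ℝ) (s : ℕ), ∃ c : ℝ, 0 < c ∧ ∀ (N j n : ℕ)
    (e : (Euc N × Euc j) ≃ₗ[ℝ] Euc n) (K : Set (Euc n)) (t : Euc j), j ≤ s → Body K →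
    WeakPoincare A (unif (fibre e K t)) → (∀ t', volume (fibre e K t') ≤ s * volume (fibre e K t)) →
    KLSHalf c K := by
  intro A s
  obtain ⟨c, hc, H⟩ := result A s 1
  exact ⟨c, hc, fun N j n e K t hj hK hA ht => H _ _ (.extend e t hj hK ht (.base (fibre_body e hK ht) hA))⟩

end Pool.Agent.Results.MP_8d00da_gt.LargeSections
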